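import Pool.Agent.H93.PF.TargetsB

/-!
# Many words can be glued (row GBD of pfs_modules)
-/

set_option autoImplicit false

open MeasureTheory Filter Topology Finset Pool.Agent.H93.PF

namespace Pool.Agent.H68.PF

theorem gd_factor {A : Type} {m : ℕ → ℕ} {n n' : ℕ} (w : Fin n → A) (w' : Fin n' → A) (k : ℕ)
    (hk : n' + k ≤ n) (h : ∀ (j : ℕ) (hj : j < n'), w' ⟨j, hj⟩ = w ⟨j + k, by omega⟩)
    (hw : Gd m w) : Gd m w' := by
  intro q i hq hi hper
  apply hw q (i + k) hq (by omega)
  intro j hj h1 h2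
  have h3 := hper (j - k) (by omega) (by omega) (by omega)
  rw [h, h] at h3
  have e1 : (⟨j - k + q + k, by omega⟩ : Fin n) = ⟨j + q, hj⟩ := by
    apply Fin.ext
    show j - k + q + k = j + q
    omega
  have e2 : (⟨j - k + k, by omega⟩ : Fin n) = ⟨j, by omega⟩ := by
    apply Fin.ext
    show j - k + k = j
    omega
  rw [e1, e2] at h3
  exact h3

/-- words with a period on a prefix -/
theorem pre_card (d : ℕ) (m : ℕ → ℕ) (n q : ℕ) (hq : 0 < q) (hpq : q < pp m q)
    (hpn : pp m q ≤ n) (B : Finset (Fin n → Fin d))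
    (hB : ∀ w ∈ B, w ∈ FF d m n ∧ Per w q 0 (pp m q)) :
    B.card ≤ (FF d m (n - (pp m q - q))).card := by
  classical
  refine Finset.card_le_card_of_injOn
    (fun w (j : Fin (n - (pp m q - q))) => w ⟨(j : ℕ) + (pp m q - q), by omega⟩) ?_ ?_
  · intro w hw
    have h1 := (hB w hw).1
    unfold FF at h1 ⊢
    rw [Finset.mem_filter] at h1
    rw [Finset.mem_coe, Finset.mem_filter]
    exact ⟨Finset.mem_univ _, gd_factor w _ (pp m q - q) (by omega) (fun j hj => rfl) h1.2⟩
  · intro w hw w' hw' h
    have g := (hB w (Finset.mem_coe.1 hw)).2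
    have g' := (hB w' (Finset.mem_coe.1 hw')).2
    have key : ∀ (s j : ℕ) (hj : j < n), n ≤ j + s → w ⟨j, hj⟩ = w' ⟨j, hj⟩ := by
      intro s
      induction s using Nat.strong_induction_on with
      | _ s ih =>
        intro j hj hs
        by_cases h1 : pp m q - q ≤ j
        · have h2 := congrFun h ⟨j - (pp m q - q), by omega⟩
          simp only at h2
          have e1 : (⟨j - (pp m q - q) + (pp m q - q), by omega⟩ : Fin n) = ⟨j, hj⟩ := by
            apply Fin.ext
            show j - (pp m q - q) + (pp m q - q) = j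
            omega
          rw [e1] at h2
          exact h2
        · have h2 := g j (by omega) (by omega) (by omega)
          have h3 := g' j (by omega) (by omega) (by omega)
          rw [← h2, ← h3]
          exact ih (s - q) (by omega) (j + q) (by omega) (by omega)
    funext j
    exact key n j j.2 (by omega)

/-- words with a period on a suffix -/
theorem suf_card (d : ℕ) (m : ℕ → ℕ) (n q : ℕ) (hq : 0 < q) (hpq : q < pp m q)
    (hpn : pp m q ≤ n) (B : Finset (Fin n → Fin d))
    (hB : ∀ w ∈ B, w ∈ FF d m n ∧ Per w q (n - pp m q) (pp m q)) :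
    B.card ≤ (FF d m (n - (pp m q - q))).card := by
  classical
  refine Finset.card_le_card_of_injOn
    (fun w (j : Fin (n - (pp m q - q))) => w ⟨(j : ℕ), by omega⟩) ?_ ?_
  · intro w hw
    have h1 := (hB w hw).1
    unfold FF at h1 ⊢
    rw [Finset.mem_filter] at h1
    rw [Finset.mem_coe, Finset.mem_filter]
    exact ⟨Finset.mem_univ _, gd_factor w _ 0 (by omega) (fun j hj => rfl) h1.2⟩
  · intro w hw w' hw' h
    have g := (hB w (Finset.mem_coe.1 hw)).2
    have g' := (hB w' (Finset.mem_coe.1 hw')).2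
    have key : ∀ (j : ℕ) (hj : j < n), w ⟨j, hj⟩ = w' ⟨j, hj⟩ := by
      intro j
      induction j using Nat.strong_induction_on with
      | _ j ih =>
        intro hj
        by_cases h1 : j < n - (pp m q - q)
        · exact congrFun h ⟨j, h1⟩
        · have h2 := g (j - q) (by omega) (by omega) (by omega)
          have h3 := g' (j - q) (by omega) (by omega) (by omega)
          have e1 : (⟨j - q + q, by omega⟩ : Fin n) = ⟨j, hj⟩ := by
            apply Fin.ext
            show j - q + q = j
            omega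
          rw [e1] at h2 h3
          rw [h2, h3]
          exact ih (j - q) (by omega) (by omega)
    funext j
    exact key j j.2

theorem pf_GBD (hGRO : T_GRO) : T_GBD := by
  classical
  intro d m θ κ hT n
  obtain ⟨-, hG2, -⟩ := hGRO d m θ κ hT
  have hθ : 0 < θ := by
    have := hT.th
    linarith
  have hpp : ∀ q, 0 < q → q < pp m q := by
    intro q hq
    have := hT.four q hq
    unfold pp
    omega
  set a : ℝ := ((FF d m n).card : ℝ) with ha
  have ha0 : 0 ≤ a := Nat.cast_nonneg _
  have hsm : ∀ q, 0 < q → pp m q ≤ n →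
      ((FF d m (n - (pp m q - q))).card : ℝ) ≤ (θ ^ (pp m q - q))⁻¹ * a := by
    intro q hq hpn
    have h1 := hG2 (n - (pp m q - q)) (pp m q - q)
    have h2 : n - (pp m q - q) + (pp m q - q) = n := by omega
    rw [h2] at h1
    have h3 : 0 < θ ^ (pp m q - q) := pow_pos hθ _
    rw [inv_mul_eq_div, le_div_iff₀ h3, mul_comm]
    exact h1
  let B1 : ℕ → Finset (Fin n → Fin d) := fun q =>
    (FF d m n).filter fun w => pp m q ≤ n ∧ Per w q 0 (pp m q)
  let B2 : ℕ → Finset (Fin n → Fin d) := fun q =>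
    (FF d m n).filter fun w => pp m q ≤ n ∧ Per w q (n - pp m q) (pp m q)
  have hb1 : ∀ q ∈ Icc 1 n, ((B1 q).card : ℝ) ≤ (θ ^ (pp m q - q))⁻¹ * a := by
    intro q hq
    have hq0 : 0 < q := (Finset.mem_Icc.1 hq).1
    by_cases hpn : pp m q ≤ n
    · have h1 := pre_card d m n q hq0 (hpp q hq0) hpn (B1 q) (fun w hw =>
        ⟨(Finset.mem_filter.1 hw).1, (Finset.mem_filter.1 hw).2.2⟩)
      exact le_trans (by exact_mod_cast h1) (hsm q hq0 hpn)
    · have h1 : B1 q = ∅ := Finset.filter_eq_empty_iff.2 fun w _ h => hpn h.1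
      rw [h1, Finset.card_empty, Nat.cast_zero]
      positivity
  have hb2 : ∀ q ∈ Icc 1 n, ((B2 q).card : ℝ) ≤ (θ ^ (pp m q - q))⁻¹ * a := by
    intro q hq
    have hq0 : 0 < q := (Finset.mem_Icc.1 hq).1
    by_cases hpn : pp m q ≤ n
    · have h1 := suf_card d m n q hq0 (hpp q hq0) hpn (B2 q) (fun w hw =>
        ⟨(Finset.mem_filter.1 hw).1, (Finset.mem_filter.1 hw).2.2⟩)
      exact le_trans (by exact_mod_cast h1) (hsm q hq0 hpn)
    · have h1 : B2 q = ∅ := Finset.filter_eq_empty_iff.2 fun w _ h => hpn h.1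
      rw [h1, Finset.card_empty, Nat.cast_zero]
      positivity
  have hsub : FF d m n ⊆ GG d m n ∪ (Icc 1 n).biUnion fun q => B1 q ∪ B2 q := by
    intro w hw
    by_cases hwG : w ∈ GG d m n
    · exact Finset.mem_union_left _ hwG
    · refine Finset.mem_union_right _ ?_
      unfold GG at hwG
      rw [Finset.mem_filter] at hwG
      have hgd : Gd m w := by
        have := hw
        unfold FF at this
        exact (Finset.mem_filter.1 this).2
      have h1 : ¬ ∀ q, 0 < q → pp m q ≤ n →
          ¬ Per w q 0 (pp m q) ∧ ¬ Per w q (n - pp m q) (pp m q) := fun h =>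
        hwG ⟨Finset.mem_univ _, hgd, h⟩
      push Not at h1
      obtain ⟨q, hq, hpn, h2⟩ := h1
      rw [Finset.mem_biUnion]
      have hqn : q ∈ Icc 1 n := by
        rw [Finset.mem_Icc]
        have := hpp q hq
        omega
      refine ⟨q, hqn, ?_⟩
      rw [Finset.mem_union]
      by_cases h3 : Per w q 0 (pp m q)
      · exact Or.inl (Finset.mem_filter.2 ⟨hw, hpn, h3⟩)
      · exact Or.inr (Finset.mem_filter.2 ⟨hw, hpn, h2 h3⟩)
  have h1 : a ≤ ((GG d m n).card : ℝ) + ∑ q ∈ Icc 1 n, (((B1 q).card : ℝ) + (B2 q).card) := by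
    have h2 : (FF d m n).card ≤ (GG d m n).card + ∑ q ∈ Icc 1 n, ((B1 q).card + (B2 q).card) := by
      refine (Finset.card_le_card hsub).trans ((Finset.card_union_le _ _).trans ?_)
      refine Nat.add_le_add_left (Finset.card_biUnion_le.trans ?_) _
      exact Finset.sum_le_sum fun q _ => Finset.card_union_le _ _
    rw [ha]
    exact_mod_cast h2
  have h2 : ∑ q ∈ Icc 1 n, (((B1 q).card : ℝ) + (B2 q).card) ≤ (1 - κ) * a := by
    calc ∑ q ∈ Icc 1 n, (((B1 q).card : ℝ) + (B2 q).card)
        ≤ ∑ q ∈ Icc 1 n, 2 * ((θ ^ (pp m q - q))⁻¹ * a) := by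
          refine Finset.sum_le_sum fun q hq => ?_
          have := hb1 q hq
          have := hb2 q hq
          linarith
      _ = (2 * ∑ q ∈ Icc 1 n, (θ ^ (pp m q - q))⁻¹) * a := by
          rw [← Finset.mul_sum, ← Finset.sum_mul]
          ring
      _ ≤ (1 - κ) * a := mul_le_mul_of_nonneg_right (hT.c2 n) ha0
  linarith

end Pool.Agent.H68.PF
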